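import Pool.Agent.Helper69.LT.Defs

/-!
# Project LT (MP_65faa7): statements
Plan: /team-store/MP_65faa7-v2.md, section LT.
-/

set_option autoImplicit false

open scoped BigOperators ENNReal
open Pool.LE Pool.NL

namespace Pool.LT

/-! ### 1. Exact identities -/

/-- (BR) factorisation over a pivotal edge -/
def SBR : Prop := ∀ (V : Type) [DecidableEq V] (R : Type) [CommRing R] (L : Finset V) (r : V → R)
  (ω : Finset (Sym2 V)) (v x a b : V), piv ω v x a b →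
    mT L r ω v x = mT L r (ω.erase s(a, b)) v a * mT L r (ω.erase s(a, b)) b x ∧
    ∀ A : Set V, mA L r ω A v x =
      mA L r (ω.erase s(a, b)) A v a * mA L r (ω.erase s(a, b)) A b x

/-- locality: everything depends on the edges touching the cluster of `v` only -/
def SLoc : Prop := ∀ (V : Type) [DecidableEq V] (R : Type) [CommRing R] (L : Finset V) (r : V → R)
  (ω η : Finset (Sym2 V)) (v : V),
  (∀ e : Sym2 V, (∃ y ∈ e, con ω v y) → (e ∈ ω ↔ e ∈ η)) →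
    ∀ (A : Set V) (u : V), mT L r ω v u = mT L r η v u ∧ mA L r ω A v u = mA L r η A v u ∧
      vA L r ω A v u = vA L r η A v u

/-- vanishing -/
def SVan : Prop := ∀ (V : Type) [DecidableEq V] (R : Type) [CommRing R] (L : Finset V) (r : V → R)
  (ω : Finset (Sym2 V)) (A : Set V) (v u : V),
  (¬ con ω v u → mT L r ω v u = 0 ∧ mA L r ω A v u = 0 ∧ vA L r ω A v u = 0) ∧
  (v ∈ A → mA L r ω A v u = 0) ∧ (u ∈ A → mA L r ω A v u = 0) ∧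
  ((∀ s ∈ A, ¬ con ω v s) → mA L r ω A v u = mT L r ω v u)

/-- (PI) the pathwise identity -/
def SPI : Prop := ∀ (V : Type) [DecidableEq V] (R : Type) [CommRing R] (L : Finset V) (r : V → R)
  (ω : Finset (Sym2 V)) (A : Set V) (v x : V),
  mT L r ω v x - mA L r ω A v x = vA L r ω A v x +
    ∑ ub ∈ drt ω, vA L r (ω.erase s(ub.1, ub.2)) A v ub.1 *
      mA L r ω (cl ω ub.1 ub.2 v) ub.2 x

/-- one directed edge in expectation -/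
def SOne : Prop := ∀ (V : Type) [DecidableEq V] (R : Type) [CommRing R] [Algebra ℝ R]
  (L : Finset V) (r : V → R) (E : Finset (Sym2 V)) (p : ℝ) (A : Set V) (v x u b : V), s(u, b) ∈ E →
    Ex E p (fun ω => if s(u, b) ∈ ω then
        vA L r (ω.erase s(u, b)) A v u * mA L r ω (cl ω u b v) b x else 0) =
      p • Ex E p (fun ω => vA L r (ω.erase s(u, b)) A v u * GTA E p L r (cl ω u b v) b x)

/-- (STEP) -/
def SStep : Prop := ∀ (V : Type) [DecidableEq V] (R : Type) [CommRing R] [Algebra ℝ R]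
  (L : Finset V) (r : V → R) (E : Finset (Sym2 V)) (p : ℝ) (A : Set V) (v x : V),
  DT E p L r A v x = WT E p L r A v x + Lop E p L r (GTA E p L r) A v x

/-- linearity of `Lop` -/
def SLin : Prop := ∀ (V : Type) [DecidableEq V] (R : Type) [CommRing R] [Algebra ℝ R]
  (L : Finset V) (r : V → R) (E : Finset (Sym2 V)) (p : ℝ) (X : Type),
  (∀ (Φ Ψ : Set V → V → X → R) (A : Set V) (v : V) (x : X),
    Lop E p L r (fun A v x => Φ A v x + Ψ A v x) A v x = Lop E p L r Φ A v x + Lop E p L r Ψ A v x) ∧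
  (∀ (Φ Ψ : Set V → V → X → R) (A : Set V) (v : V) (x : X),
    Lop E p L r (fun A v x => Φ A v x - Ψ A v x) A v x = Lop E p L r Φ A v x - Lop E p L r Ψ A v x) ∧
  (∀ (Φ : Set V → V → X → R) (A : Set V) (v : V) (x : X) (N : ℕ),
    ((Lop E p L r)^[N] Φ) A v x = ((Lop E p L r)^[N] (fun A v (_ : Unit) => Φ A v x)) A v ()) ∧
  (∀ (Ψ : Set V → V → V × V → R) (G : V → V → R) (A : Set V) (v x : V) (N : ℕ),
    ((Lop E p L r)^[N] (fun A v x => ∑ ub ∈ drt E, p • (Ψ A v ub * G ub.2 x))) A v x =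
      ∑ ub ∈ drt E, p • (((Lop E p L r)^[N] Ψ) A v ub * G ub.2 x))

/-- (EXP) -/
def SExp : Prop := ∀ (V : Type) [DecidableEq V] (R : Type) [CommRing R] [Algebra ℝ R]
  (L : Finset V) (r : V → R) (E : Finset (Sym2 V)) (p : ℝ) (M : ℕ) (v x : V),
  GT E p L r v x = gM E p L r M v x +
    ∑ ub ∈ drt E, p • (pM E p L r M v ub * GT E p L r ub.2 x) +
    (-1) ^ (M + 1) * ((Lop E p L r)^[M + 1] (DT E p L r)) {v} v x

/-! ### 2. Norms -/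

/-- calculus of `Nl` -/
def SNl : Prop := ∀ lam : ENNReal,
  (Nl lam 0 = 0) ∧ (Nl lam 1 = 1) ∧
  (∀ a b : DualNumber ℝ, Nl lam (a + b) ≤ Nl lam a + Nl lam b) ∧
  (∀ a b : DualNumber ℝ, Nl lam (a - b) ≤ Nl lam a + Nl lam b) ∧
  (∀ a b : DualNumber ℝ, Nl lam (a * b) ≤ Nl lam a * Nl lam b) ∧
  (∀ (c : ℝ) (a : DualNumber ℝ), 0 ≤ c → Nl lam (c • a) = ENNReal.ofReal c * Nl lam a) ∧
  (∀ (N : ℕ) (a : DualNumber ℝ), Nl lam ((-1) ^ N * a) = Nl lam a) ∧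
  (∀ (ι : Type) (s : Finset ι) (f : ι → DualNumber ℝ), Nl lam (∑ i ∈ s, f i) ≤ ∑ i ∈ s, Nl lam (f i)) ∧
  (∀ (V : Type) [DecidableEq V] (E : Finset (Sym2 V)) (p : ℝ) (f : Finset (Sym2 V) → DualNumber ℝ),
    0 ≤ p → p ≤ 1 → Nl lam (Ex E p f) ≤ ExE E p (fun ω => Nl lam (f ω))) ∧
  (∀ (V : Type) [DecidableEq V] (E : Finset (Sym2 V)) (p : ℝ) (f : Finset (Sym2 V) → DualNumber ℝ),
    (Ex E p f).fst = Ex E p (fun ω => (f ω).fst) ∧ (Ex E p f).snd = Ex E p (fun ω => (f ω).snd))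

/-- the values of the weights -/
def SProd : Prop := ∀ (V : Type) [DecidableEq V] (L : Finset V) (ρ k : V → ℝ) (ω : Finset (Sym2 V))
  (v x : V) (A : Set V), (∀ y, 0 ≤ ρ y ∧ ρ y ≤ 1) →
    (mT L (dw ρ k) ω v x).fst = ind (con ω v x) * pw L ρ ω v ∧
    (mT L (dw ρ k) ω v x).snd = - (ind (con ω v x) * pw L ρ ω v * ∑ y ∈ L, ind (con ω v y) * k y) ∧
    0 ≤ pw L ρ ω v ∧ pw L ρ ω v ≤ 1 ∧
    (0 ≤ (mT L (dw ρ k) ω v x).fst ∧ (mT L (dw ρ k) ω v x).fst ≤ 1) ∧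
    (0 ≤ (mA L (dw ρ k) ω A v x).fst ∧ (mA L (dw ρ k) ω A v x).fst ≤ 1) ∧
    ENNReal.ofReal |(mT L (dw ρ k) ω v x).snd| ≤ kap L k ω v ∧
    ENNReal.ofReal |(mA L (dw ρ k) ω A v x).snd| ≤ kap L k ω v ∧
    (∀ η : Finset (Sym2 V), η ⊆ ω → ∀ b, con ω v b → kap L k η b ≤ kap L k ω v)

open Classical in
/-- (NORM) -/
def SNorm : Prop := ∀ (V : Type) [DecidableEq V] (L : Finset V) (ρ k : V → ℝ) (lam : ENNReal)
  (ω : Finset (Sym2 V)) (A : Set V) (v u : V), (∀ y, 0 ≤ ρ y ∧ ρ y ≤ 1) →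
    Nl lam (vA L (dw ρ k) ω A v u) ≤ (1 + 3 * lam * kap L k ω v) *
      ∑' t : V, ∑' s : V, if s ∈ A ∧ Bp ω v u t s then 1 else 0

/-- (BASE) -/
def SBase : Prop := ∀ (V : Type) [DecidableEq V] (ω : Finset (Sym2 V)) (v u t s : V),
  Bp ω v u t s → ∃ w' : V, DR [(v, [t, w'], s), (t, [u], w')] ω

open Classical in
/-- attaching `s'` and `y`, before taking expectations -/
def SLevD : Prop := ∀ (V : Type) [DecidableEq V] (L : Finset V) (k : V → ℝ) (lam : ENNReal)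
  (ω : Finset (Sym2 V)) (v u t s s' : V), Bp ω v u t s → con ω v s' →
    (1 : ENNReal) + 3 * lam * kap L k ω v ≤
      ∑' w' : V, ∑' w : V, ((ins w [(v, [t, w'], s), (t, [u], w')]).map (fun L' =>
        (if DR ((w, [], s') :: L') ω then (1 : ENNReal) else 0) +
        3 * lam * ∑ y ∈ L, ENNReal.ofReal |k y| * ∑' z : V,
          ((ins z ((w, [], s') :: L')).map (fun L'' =>
            if DR ((z, [], y) :: L'') ω then (1 : ENNReal) else 0)).sum)).sum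

open Classical in
/-- (LEV) -/
def SLev : Prop := ∀ (V : Type) [DecidableEq V] (L : Finset V) (ρ k : V → ℝ) (lam : ENNReal)
  (E : Finset (Sym2 V)) (p : ℝ) (T K q : V → V → ENNReal) (nbf : V → Finset V)
  (B eps eta : ENNReal) (D : ℕ), Env0 E p L T K q nbf k B eps eta D → (∀ y, 0 ≤ ρ y ∧ ρ y ≤ 1) →
  ∀ (f : Finset (Sym2 V) → Finset (Sym2 V)), (∀ ω, f ω ⊆ ω) → ∀ (A : Set V) (v u s' : V),
    ExE E p (fun ω => Nl lam (vA L (dw ρ k) (f ω) A v u) * if con (f ω) v s' then 1 else 0) ≤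
      (1 + 21 * lam * eta) * ∑' s : V, if s ∈ A then
        ∑' w : V, core0 (kc T T) v s u w * kc T T w s' else 0

/-- (MASS) -/
def SMass : Prop := ∀ (V : Type) [DecidableEq V] (T K q : V → V → ENNReal) (B : ENNReal),
  WK T K q B → ∀ v s : V, ∑' u : V, ∑' w : V, q v u * core0 T v s u w ≤ 10 * B * kp K 24 v s

/-- (MAJ) the step -/
def SMaj : Prop := ∀ (V : Type) [DecidableEq V] (L : Finset V) (ρ k : V → ℝ) (lam : ENNReal)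
  (E : Finset (Sym2 V)) (p : ℝ) (T K q : V → V → ENNReal) (nbf : V → Finset V)
  (B eps eta : ENNReal) (D : ℕ), Env0 E p L T K q nbf k B eps eta D → (∀ y, 0 ≤ ρ y ∧ ρ y ≤ 1) →
  ∀ (X : Type) (qx : V → X → ENNReal), (∀ v u b x, b ∈ nbf u → qx v x ≤ 4 * q v u * qx b x) →
  ∀ (Φ : Set V → V → X → DualNumber ℝ) (c : ENNReal), Maj K qx lam Φ c →
    Maj K qx lam (Lop E p L (dw ρ k) Φ) (c * (40 * (1 + 21 * lam * eta) * B * eps))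

open Classical in
/-- (MAJ) the starting functions -/
def SMaj0 : Prop := ∀ (V : Type) [DecidableEq V] (L : Finset V) (ρ k : V → ℝ) (lam : ENNReal)
  (E : Finset (Sym2 V)) (p : ℝ) (T K q : V → V → ENNReal) (nbf : V → Finset V)
  (B eps eta : ENNReal) (D : ℕ), Env0 E p L T K q nbf k B eps eta D → (∀ y, 0 ≤ ρ y ∧ ρ y ≤ 1) →
    Maj K q lam (WT E p L (dw ρ k)) (10 * (1 + 21 * lam * eta) * B ^ 2) ∧
    Maj K (fun v (ub : V × V) => if ub.2 ∈ nbf ub.1 then q v ub.1 else 0) lam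
      (W3 E p L (dw ρ k)) (D * (10 * (1 + 21 * lam * eta) * B ^ 2)) ∧
    ∀ x : V, Maj K (fun (_ : V) (_ : Unit) => 1) lam
      (fun A v (_ : Unit) => DT E p L (dw ρ k) A v x)
      (1 + 3 * lam * ∑ y ∈ L, ENNReal.ofReal |k y|)

/-- doubly connected points -/
def SDbl : Prop := ∀ (V : Type) [DecidableEq V] (E : Finset (Sym2 V)) (p : ℝ) (T : V → V → ENNReal)
  (nbf : V → Finset V), 0 ≤ p → p ≤ 1 / 2 → Dom E p T → (∀ u b, s(u, b) ∈ E → b ∈ nbf u) →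
    ∀ v x : V, x ≠ v →
      Pr E p (fun ω => dbl ω v x) ≤ T v x * ∑ b ∈ nbf v, ENNReal.ofReal p * T b x

/-! ### 3. Sums -/

open Classical in
/-- bounds for the truncated series: real part near the identity -/
def SSum0 : Prop := ∀ (V : Type) [DecidableEq V] (L : Finset V) (ρ k : V → ℝ)
  (E : Finset (Sym2 V)) (p : ℝ) (T K q : V → V → ENNReal) (nbf : V → Finset V)
  (B eps eta : ENNReal) (D : ℕ), Env0 E p L T K q nbf k B eps eta D → (∀ y, 0 ≤ ρ y ∧ ρ y ≤ 1) →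
  1 ≤ B → 40 * B * eps ≤ 1 / 2 → ∀ (M : ℕ) (v : V),
    ∑' x : V, q v x * ENNReal.ofReal |(gM E p L (dw ρ k) M v x).fst - if x = v then 1 else 0| ≤
      q v v * ENNReal.ofReal (1 - Ex E p (fun ω => pw L ρ ω v)) + 1000 * B ^ 4 * eps

open Classical in
/-- bounds for the truncated series: everything, and the remainder -/
def SSum1 : Prop := ∀ (V : Type) [DecidableEq V] (L : Finset V) (ρ k : V → ℝ) (lam : ENNReal)
  (E : Finset (Sym2 V)) (p : ℝ) (T K q : V → V → ENNReal) (nbf : V → Finset V)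
  (B eps eta : ENNReal) (D : ℕ), Env0 E p L T K q nbf k B eps eta D → (∀ y, 0 ≤ ρ y ∧ ρ y ≤ 1) →
  lam * eta ≤ 1 → 40 * 22 * B * eps ≤ 1 / 2 → ∀ (v : V),
    (∀ N : ℕ, ∑' x : V, q v x * Nl lam (((Lop E p L (dw ρ k))^[N] (WT E p L (dw ρ k))) {v} v x) ≤
      220 * B ^ 3 * (1 / 2) ^ N) ∧
    (∀ N : ℕ, ∑' ub : V × V, (if ub.2 ∈ nbf ub.1 then q v ub.1 else 0) *
        Nl lam (((Lop E p L (dw ρ k))^[N] (W3 E p L (dw ρ k))) {v} v ub) ≤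
      220 * D * B ^ 3 * (1 / 2) ^ N) ∧
    (∀ (N : ℕ) (x : V), Nl lam (((Lop E p L (dw ρ k))^[N] (DT E p L (dw ρ k))) {v} v x) ≤
      (1 + 3 * lam * ∑ y ∈ L, ENNReal.ofReal |k y|) * B * (1 / 2) ^ N)

/-! ### 4. The limit `M → ∞` and linear algebra -/

/-- `E[1(u ↔ v) ρ(C)]` -/
noncomputable def G0 {V : Type} [DecidableEq V] (E : Finset (Sym2 V)) (p : ℝ) (L : Finset V)
    (ρ : V → ℝ) (u v : V) : ℝ := ex E p (fun ω => ind (con ω u v) * pw L ρ ω u)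

/-- `E[1(u ↔ v) ρ(C) k(C)]` -/
noncomputable def G1 {V : Type} [DecidableEq V] (E : Finset (Sym2 V)) (p : ℝ) (L : Finset V)
    (ρ k : V → ℝ) (u v : V) : ℝ :=
  ex E p (fun ω => ind (con ω u v) * pw L ρ ω u * ∑ y ∈ L, ind (con ω u y) * k y)

open Classical in
/-- the limit equations -/
def SLim : Prop := ∀ (V : Type) [DecidableEq V] (L : Finset V) (ρ k : V → ℝ)
  (E : Finset (Sym2 V)) (p : ℝ) (T K q : V → V → ENNReal) (nbf : V → Finset V)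
  (B eps eta : ENNReal) (D : ℕ), Env0 E p L T K q nbf k B eps eta D → (∀ y, 0 ≤ ρ y ∧ ρ y ≤ 1) →
  (∀ e ∈ E, ∀ v ∈ e, v ∈ L) → 1 ≤ B → B ≠ ⊤ → (∀ x y, q x y ≠ ⊤) → eta ≠ ⊤ → 40 * 22 * B * eps ≤ 1 / 2 →
    ∃ g₀ g₁ P₀ P₁ : V → V → ℝ,
      (∀ v x, G0 E p L ρ v x = g₀ v x + ∑ b ∈ L, P₀ v b * G0 E p L ρ b x) ∧
      (∀ v x, - G1 E p L ρ k v x = g₁ v x +
        ∑ b ∈ L, (P₁ v b * G0 E p L ρ b x - P₀ v b * G1 E p L ρ k b x)) ∧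
      (∀ v, ∑' x : V, q v x * ENNReal.ofReal |g₀ v x - if x = v then 1 else 0| ≤
        q v v * ENNReal.ofReal (1 - ex E p (fun ω => pw L ρ ω v)) + 1000 * B ^ 4 * eps) ∧
      (∀ v, ∑' x : V, q v x * ENNReal.ofReal |g₁ v x| ≤ 440 * B ^ 3 * eta) ∧
      (∀ v, ∑' x : V, q v x * ENNReal.ofReal |P₀ v x| ≤ 1760 * D * B ^ 3) ∧
      (∀ v, ∑' x : V, q v x * ENNReal.ofReal |P₁ v x| ≤ 1760 * D * B ^ 3 * eta)

open Classical in
/-- linear algebra with a submultiplicative weight -/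
def SAlg : Prop := ∀ (V : Type) [DecidableEq V] (L : Finset V) (q G G' g₀ g₁ P₀ P₁ : V → V → ℝ)
  (a C₀ C₁ η : ℝ), (∀ x y, 1 ≤ q x y) → (∀ x y z, q x z ≤ q x y * q y z) → (∀ x, q x x ≤ a) →
  0 ≤ C₀ → 0 ≤ C₁ → 0 ≤ η →
  (∀ v ∈ L, ∀ x ∈ L, G v x = g₀ v x + ∑ b ∈ L, P₀ v b * G b x) →
  (∀ v ∈ L, ∀ x ∈ L, - G' v x = g₁ v x + ∑ b ∈ L, (P₁ v b * G b x - P₀ v b * G' b x)) →
  (∀ v ∈ L, ∑ x ∈ L, q v x * |g₀ v x - if x = v then 1 else 0| ≤ 1 / 2) →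
  (∀ v ∈ L, ∑ x ∈ L, q v x * |g₁ v x| ≤ C₁ * η) →
  (∀ v ∈ L, ∑ x ∈ L, q v x * |P₀ v x| ≤ C₀) →
  (∀ v ∈ L, ∑ x ∈ L, q v x * |P₁ v x| ≤ C₁ * η) →
    ∃ H S : V → V → ℝ, (∀ u v, u ∉ L ∨ v ∉ L → H u v = 0 ∧ S u v = 0) ∧
      (∀ u ∈ L, ∀ v ∈ L, ∑ z ∈ L, H u z * G z v = if u = v then 1 else 0) ∧
      (∀ u ∈ L, ∀ v ∈ L, ∑ z ∈ L, G u z * H z v = if u = v then 1 else 0) ∧
      (∀ u ∈ L, ∀ v ∈ L, G' u v = ∑ b ∈ L, ∑ c ∈ L, G u b * S b c * G c v) ∧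
      (∀ u ∈ L, ∑ v ∈ L, q u v * |H u v| ≤ (a + 1) * (a + C₀)) ∧
      (∀ u ∈ L, ∑ v ∈ L, q u v * |S u v| ≤ (a + 1) * (C₁ * η * ((a + 1) * (a + C₀)) + C₁ * η))

/-! ### 5. The lattice -/

/-- powers of the weighted kernel at `pH` -/
def SKpQ : Prop := ∃ C : ℝ, 1 ≤ C ∧ ∃ d₁ : ℕ, ∀ d : ℕ, d₁ ≤ d → ∀ x y : Zd d,
  kp (Kd d (pH d)) 64 x y ≤ ENNReal.ofReal C ∧
  ∑ b ∈ nb x, ENNReal.ofReal (pH d) * kp (Kd d (pH d)) 64 b y ≤ ENNReal.ofReal (C / Real.sqrt d)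

/-- the environment on the lattice -/
def SEnvL : Prop := ∃ B : ℝ, 1 ≤ B ∧ ∃ d₁ : ℕ, 1 ≤ d₁ ∧ ∀ d : ℕ, d₁ ≤ d →
  ∀ (L : Finset (Zd d)) (E : Finset (Sym2 (Zd d))) (k : Zd d → ℝ) (η : ℝ),
  (E : Set (Sym2 (Zd d))) ⊆ latE d → (∀ e ∈ E, ∀ v ∈ e, v ∈ L) → 0 ≤ η →
  (∀ w ∈ L, ∑ y ∈ L, tau d (pH d) (y - w) * |k y| ≤ η) →
    ∃ T K : Zd d → Zd d → ENNReal,
      Env0 E (pH d) L T K (fun x y => ENNReal.ofReal (Qw (y - x))) nb k (ENNReal.ofReal B)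
        (ENNReal.ofReal (B / Real.sqrt d)) (ENNReal.ofReal η) (2 * d)

/-- the final statement of the project -/
def StLT : Prop := ∃ d₁ : ℕ, 1 ≤ d₁ ∧ ∀ d : ℕ, d₁ ≤ d → ∃ C : ℝ, 1 ≤ C ∧
  ∀ (L : Finset (Zd d)) (E : Finset (Sym2 (Zd d))) (ρ k : Zd d → ℝ) (η : ℝ),
  (E : Set (Sym2 (Zd d))) ⊆ latE d → (∀ e ∈ E, ∀ v ∈ e, v ∈ L) → (∀ y, 0 ≤ ρ y ∧ ρ y ≤ 1) →
  0 ≤ η → (∀ w ∈ L, ∑ y ∈ L, tau d (pH d) (y - w) * |k y| ≤ η) →
  (∀ v ∈ L, 7 / 8 ≤ ex E (pH d) (fun ω => pw L ρ ω v)) →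
    ∃ H S : Zd d → Zd d → ℝ, (∀ u v, u ∉ L ∨ v ∉ L → H u v = 0 ∧ S u v = 0) ∧
      (∀ u ∈ L, ∀ v ∈ L, ∑ z ∈ L, H u z * G0 E (pH d) L ρ z v = ind (u = v)) ∧
      (∀ u ∈ L, ∀ v ∈ L, ∑ z ∈ L, G0 E (pH d) L ρ u z * H z v = ind (u = v)) ∧
      (∀ u ∈ L, ∀ v ∈ L, G1 E (pH d) L ρ k u v =
        ∑ b ∈ L, ∑ c ∈ L, G0 E (pH d) L ρ u b * S b c * G0 E (pH d) L ρ c v) ∧
      (∀ u ∈ L, ∑ v ∈ L, Qw (v - u) * |H u v| ≤ C) ∧
      (∀ u ∈ L, ∑ v ∈ L, Qw (v - u) * |S u v| ≤ C * η)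

end Pool.LT
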