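import Pool.Agent.Helper69.LT.Out
import Pool.Agent.Helper65.CL.StE
import Pool.Agent.Helper67.LT.M_BR
import Pool.Agent.Helper4.LT.M_Loc
import Pool.Agent.Helper71.LT.M_Van
import Pool.Agent.Helper48.LT.M_PI
import Pool.Agent.Helper13.LT.M_One
import Pool.Agent.Helper73.LT.M_Step
import Pool.Agent.Helper17.LT.M_Lin
import Pool.Agent.Helper33.LT.M_Exp
import Pool.Agent.Helper92.LT.M_Nl
import Pool.Agent.Helper58.LT.M_Prod
import Pool.Agent.Helper96.LT.M_Norm
import Pool.Agent.Helper46.LT.M_Base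
import Pool.Agent.Helper29.LT.M_LevD
import Pool.Agent.Helper57.LT.M_Lev
import Pool.Agent.Helper85.LT.M_Mass
import Pool.Agent.Helper62.LT.M_Maj
import Pool.Agent.Helper7.LT.M_Maj0
import Pool.Agent.Helper80.LT.M_Dbl
import Pool.Agent.Helper99.LT.M_Sum0
import Pool.Agent.Helper79.LT.M_Sum1
import Pool.Agent.Helper76.LT.M_Lim
import Pool.Agent.Helper61.LT.M_Alg
import Pool.Agent.Helper1.LT.M_KpQ
import Pool.Agent.Helper45.LT.M_EnvL
import Pool.Agent.Helper91.LT.M_Final

/-!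
# Project LT (MP_65faa7): assembly of the weighted lace expansion
-/

set_option autoImplicit false

namespace Pool.LT

/-- the weighted lace expansion, without hypotheses -/
theorem allLT : StLT := by
  have hVan' := hVan
  have hLoc' := hLoc
  have hPI' := hPI hVan' hBR hLoc'
  have hOne' := hOne hVan' hLoc'
  have hStep' := hStep hPI' hOne'
  have hExp' := hExp hVan' hStep' hLin
  have hNorm' := hNorm hNl hProd hVan'
  have hLevD' := hLevD hBase
  have hLev' := hLev hNl hNorm' hLevD'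
  have hMaj' := hMaj hNl hLev' hMass
  have hMaj0' := hMaj0 hNl hProd hVan' hLev' hMass
  have hSum0' := hSum0 hNl hProd hVan' hMaj' hMaj0' hDbl
  have hSum1' := hSum1 hLin hMaj' hMaj0'
  have hLim' := hLim hNl hProd hExp' hLin hSum0' hSum1'
  exact hFinal hProd hLim' hAlg (hEnvL hKpQ)

/-- the form used by project CL -/
theorem allOut : ∃ d₁ : ℕ, 1 ≤ d₁ ∧ ∀ d : ℕ, d₁ ≤ d → ∃ CL : ℝ, 1 ≤ CL ∧ Pool.CL.LTb d CL :=
  hOut allLT

theorem hLTd : Pool.CL.StLTd := by
  obtain ⟨d₁, -, h⟩ := allOut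
  exact ⟨d₁, h⟩

end Pool.LT
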