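import Pool.Agent.Helper84.LE.St1
import Pool.Agent.Helper84.LE.St2
import Pool.Agent.Helper22.NL.Defs
import Pool.Agent.Helper22.NL.StR

/-!
# Project LT (MP_65faa7): weighted lace expansion, definitions
Every vertex of a finite set `L` carries a weight `r y`; the weight of a cluster is the product.
-/

set_option autoImplicit false

open scoped BigOperators ENNReal
open Pool.LE Pool.NL

namespace Pool.LT

/-! ## The expansion with values in a commutative ring -/

section Ring

variable {V : Type} [DecidableEq V] {R : Type} [CommRing R]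

open Classical in
/-- product of the weights over the cluster of `v` -/
noncomputable def pw (L : Finset V) (r : V → R) (ω : Finset (Sym2 V)) (v : V) : R :=
  ∏ y ∈ L.filter (fun y => con ω v y), r y

open Classical in
/-- weight of the cluster if `v` and `x` are connected, or `0` -/
noncomputable def mT (L : Finset V) (r : V → R) (ω : Finset (Sym2 V)) (v x : V) : R :=
  if con ω v x then pw L r ω v else 0

open Classical in
/-- the same where the vertices of `A` are forbidden -/
noncomputable def mA (L : Finset V) (r : V → R) (ω : Finset (Sym2 V)) (A : Set V) (v x : V) : R :=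
  if v ∈ A then 0 else mT L r (rst ω A) v x

open Classical in
/-- the weight of the expansion -/
noncomputable def vA (L : Finset V) (r : V → R) (ω : Finset (Sym2 V)) (A : Set V) (v x : V) : R :=
  (if dbl ω v x then mT L r ω v x - mA L r ω A v x else 0) +
  ∑ cb ∈ drt ω, if piv ω v x cb.1 cb.2 ∧ dbl ω cb.2 x then
    mA L r (ω.erase s(cb.1, cb.2)) A v cb.1 *
      (mT L r (ω.erase s(cb.1, cb.2)) cb.2 x - mA L r (ω.erase s(cb.1, cb.2)) A cb.2 x) else 0

variable [Algebra ℝ R]

/-- two-point function -/
noncomputable def GT (E : Finset (Sym2 V)) (p : ℝ) (L : Finset V) (r : V → R) (v x : V) : R :=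
  Ex E p (fun ω => mT L r ω v x)

/-- restricted two-point function -/
noncomputable def GTA (E : Finset (Sym2 V)) (p : ℝ) (L : Finset V) (r : V → R) (A : Set V)
    (v x : V) : R := Ex E p (fun ω => mA L r ω A v x)

/-- difference -/
noncomputable def DT (E : Finset (Sym2 V)) (p : ℝ) (L : Finset V) (r : V → R) (A : Set V)
    (v x : V) : R := GT E p L r v x - GTA E p L r A v x

/-- expectation of the weight -/
noncomputable def WT (E : Finset (Sym2 V)) (p : ℝ) (L : Finset V) (r : V → R) (A : Set V)
    (v x : V) : R := Ex E p (fun ω => vA L r ω A v x)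

/-- expectation of the weight when one edge is removed -/
noncomputable def W3 (E : Finset (Sym2 V)) (p : ℝ) (L : Finset V) (r : V → R) (A : Set V)
    (v : V) (ub : V × V) : R := Ex E p (fun ω => vA L r (ω.erase s(ub.1, ub.2)) A v ub.1)

/-- one step of the expansion, for functions with any type of target -/
noncomputable def Lop {X : Type} (E : Finset (Sym2 V)) (p : ℝ) (L : Finset V) (r : V → R)
    (Φ : Set V → V → X → R) : Set V → V → X → R := fun A v x =>
  ∑ ub ∈ drt E, p • Ex E p (fun ω =>
    vA L r (ω.erase s(ub.1, ub.2)) A v ub.1 * Φ (cl ω ub.1 ub.2 v) ub.2 x)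

/-- the coefficient function, `M + 1` terms -/
noncomputable def gM (E : Finset (Sym2 V)) (p : ℝ) (L : Finset V) (r : V → R) (M : ℕ) (v x : V) : R :=
  ∑ N ∈ Finset.range (M + 1), (-1) ^ N * ((Lop E p L r)^[N] (WT E p L r)) {v} v x

/-- the step function, `M + 1` terms -/
noncomputable def pM (E : Finset (Sym2 V)) (p : ℝ) (L : Finset V) (r : V → R) (M : ℕ) (v : V)
    (ub : V × V) : R :=
  ∑ N ∈ Finset.range (M + 1), (-1) ^ N * ((Lop E p L r)^[N] (W3 E p L r)) {v} v ub

end Ring

/-! ## Real weights with one derivative -/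

/-- the dual number `ρ (1 - ε k)` -/
noncomputable def dw {V : Type} (ρ k : V → ℝ) (y : V) : DualNumber ℝ :=
  TrivSqZeroExt.inl (ρ y) - TrivSqZeroExt.inr (ρ y * k y)

/-- the norm `|a| + lam |b|` of `a + ε b` -/
noncomputable def Nl (lam : ENNReal) (a : DualNumber ℝ) : ENNReal :=
  ENNReal.ofReal |a.fst| + lam * ENNReal.ofReal |a.snd|

section Diag

variable {V : Type} [DecidableEq V]

open Classical in
/-- the sum of `|k|` over the cluster of `v` -/
noncomputable def kap (L : Finset V) (k : V → ℝ) (ω : Finset (Sym2 V)) (v : V) : ENNReal :=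
  ∑ y ∈ L.filter (fun y => con ω v y), ENNReal.ofReal |k y|

/-- the event of one level -/
def Bp (ω : Finset (Sym2 V)) (v u t s : V) : Prop :=
  dbl ω t u ∧ ((t = v ∧ con ω v s) ∨ ∃ c, piv ω v u c t ∧ con (ω.erase s(c, t)) t s)

/-- the kernel of one level (no ear): `NL.coreR 0` -/
noncomputable def core0 (T : V → V → ENNReal) (v s u w : V) : ENNReal := coreR 0 T v s u w

open Classical in
/-- `Φ` has the majorant `c` -/
def Maj {X : Type} (K : V → V → ENNReal) (qx : V → X → ENNReal) (lam : ENNReal)
    (Φ : Set V → V → X → DualNumber ℝ) (c : ENNReal) : Prop :=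
  ∀ (A : Set V) (v : V), ∑' x : X, qx v x * Nl lam (Φ A v x) ≤
    ∑' s : V, if s ∈ A then c * kp K 24 v s else 0

/-- the setting of the diagram estimates: `T` dominates the connection probabilities, `kc T T` is
dominated by `K` with the weight `q` -/
structure Env0 (E : Finset (Sym2 V)) (p : ℝ) (L : Finset V) (T K q : V → V → ENNReal)
    (nbf : V → Finset V) (k : V → ℝ) (B eps eta : ENNReal) (D : ℕ) : Prop where
  p0 : 0 ≤ p
  p1 : p ≤ 1 / 2
  dom : Dom E p T
  one_le : ∀ x, 1 ≤ T x x
  wk : WK (kc T T) K q B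
  nbE : ∀ u b, s(u, b) ∈ E → b ∈ nbf u
  deg : ∀ u, (nbf u).card ≤ D
  q4 : ∀ u, ∀ b ∈ nbf u, q u b ≤ 4
  heps : ∀ x y, ∑ b ∈ nbf x, ENNReal.ofReal p * kp K 32 b y ≤ eps
  heta : ∀ w, ∑ y ∈ L, T w y * ENNReal.ofReal |k y| ≤ eta

end Diag

end Pool.LT
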