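import Pool.Agent.Helper69.LT.St
import Pool.Agent.Helper65.CL.Defs

/-!
# Project LT (MP_65faa7): bridge to the form used in project CL
-/

set_option autoImplicit false

open scoped BigOperators ENNReal
open Pool.LE Pool.NL

namespace Pool.LT

namespace OutM

theorem pw_eq {V : Type} [DecidableEq V] (L : Finset V) (ρ : V → ℝ) (ω : Finset (Sym2 V)) (u : V) :
    pw L ρ ω u = CL.rp ρ (clu L ω u) := by
  unfold pw CL.rp clu
  rfl

theorem G0_eq {V : Type} [DecidableEq V] (L : Finset V) (E : Finset (Sym2 V)) (p : ℝ) (ρ : V → ℝ)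
    (u v : V) : G0 E p L ρ u v = CL.GK L E p ρ u v := by
  unfold G0 CL.GK
  simp only [pw_eq]

theorem sum_ind {V : Type} [DecidableEq V] (L : Finset V) (k : V → ℝ) (ω : Finset (Sym2 V)) (u : V) :
    ∑ y ∈ L, ind (con ω u y) * k y = CL.ms k (clu L ω u) := by
  unfold CL.ms clu
  rw [Finset.sum_filter]
  refine Finset.sum_congr rfl fun y _ => ?_
  unfold ind
  split_ifs <;> simp

theorem G1_eq {V : Type} [DecidableEq V] (L : Finset V) (E : Finset (Sym2 V)) (p : ℝ) (ρ k : V → ℝ)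
    (u v : V) : G1 E p L ρ k u v = CL.GT L E p ρ k u v := by
  unfold G1 CL.GT
  simp only [pw_eq, sum_ind]
  congr 1
  funext ω
  ring

/-- the inverse kernel is unique -/
theorem kinv_eq {V : Type} [DecidableEq V] (L : Finset V) (G H : V → V → ℝ)
    (h1 : ∀ u ∈ L, ∀ v ∈ L, ∑ z ∈ L, H u z * G z v = ind (u = v)) :
    ∀ u ∈ L, ∀ v ∈ L, CL.kinv L G u v = H u v := by
  classical
  intro u hu v hv
  unfold CL.kinv
  rw [dif_pos ⟨hu, hv⟩]
  set A : Matrix {x // x ∈ L} {x // x ∈ L} ℝ := Matrix.of fun a b => G a.1 b.1 with hA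
  set B : Matrix {x // x ∈ L} {x // x ∈ L} ℝ := Matrix.of fun a b => H a.1 b.1 with hB
  have hBA : B * A = 1 := by
    ext a b
    rw [Matrix.mul_apply, Matrix.one_apply]
    have := h1 a.1 a.2 b.1 b.2
    have e : ∑ j : {x // x ∈ L}, B a j * A j b = ∑ z ∈ L, H a.1 z * G z b.1 :=
      (Finset.sum_coe_sort L (fun z => H a.1 z * G z b.1))
    rw [e, this]
    unfold ind
    by_cases hab : a = b
    · simp [hab]
    · have : ¬ a.1 = b.1 := fun h => hab (Subtype.ext h)
      simp [hab, this]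
  rw [Matrix.inv_eq_left_inv hBA]
  rfl

end OutM

open OutM in
/-- the form of project CL -/
theorem hOut (h : StLT) : ∃ d₁ : ℕ, 1 ≤ d₁ ∧ ∀ d : ℕ, d₁ ≤ d → ∃ C : ℝ, 1 ≤ C ∧ CL.LTb d C := by
  obtain ⟨d₁, hd₁, h⟩ := h
  refine ⟨d₁, hd₁, fun d hd => ?_⟩
  obtain ⟨C, hC, h⟩ := h d hd
  refine ⟨C, hC, ?_⟩
  intro L E ρ k η hE hEL hρ h78 hη hk
  obtain ⟨H, S, h0, hHG, hGH, hG1, hbH, hbS⟩ := h L E ρ k η hE hEL
    (fun y => ⟨(hρ y).1.le, (hρ y).2⟩) hη.le hk (by
      intro v hv
      have := h78 v hv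
      simpa only [pw_eq] using this)
  have hGK : ∀ u ∈ L, ∀ v ∈ L, CL.HK L E (pH d) ρ u v = H u v := by
    intro u hu v hv
    unfold CL.HK
    refine kinv_eq L _ H ?_ u hu v hv
    intro u hu v hv
    have := hHG u hu v hv
    simpa only [G0_eq] using this
  have hSK : ∀ u ∈ L, ∀ v ∈ L, CL.SK L E (pH d) ρ k u v = S u v := by
    intro u hu v hv
    unfold CL.SK CL.kk
    have e1 : ∀ w ∈ L, ∑ z ∈ L, CL.GT L E (pH d) ρ k w z * CL.HK L E (pH d) ρ z v =
        ∑ b ∈ L, G0 E (pH d) L ρ w b * S b v := by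
      intro w hw
      have e2 : ∀ z ∈ L, CL.GT L E (pH d) ρ k w z * CL.HK L E (pH d) ρ z v =
          ∑ b ∈ L, ∑ c ∈ L, G0 E (pH d) L ρ w b * S b c * (G0 E (pH d) L ρ c z * H z v) := by
        intro z hz
        rw [← G1_eq, hG1 w hw z hz, hGK z hz v hv, Finset.sum_mul]
        refine Finset.sum_congr rfl fun b _ => ?_
        rw [Finset.sum_mul]
        refine Finset.sum_congr rfl fun c _ => ?_
        ring
      rw [Finset.sum_congr rfl e2, Finset.sum_comm]
      refine Finset.sum_congr rfl fun b hb => ?_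
      rw [Finset.sum_comm]
      have e3 : ∀ c ∈ L, ∑ z ∈ L, G0 E (pH d) L ρ w b * S b c * (G0 E (pH d) L ρ c z * H z v) =
          G0 E (pH d) L ρ w b * S b c * ind (c = v) := by
        intro c hc
        rw [← Finset.mul_sum, hGH c hc v hv]
      rw [Finset.sum_congr rfl e3]
      rw [Finset.sum_eq_single v]
      · simp [ind]
      · intro c _ hcv
        simp [ind, hcv]
      · intro hvL
        exact absurd hv hvL
    have e4 : ∀ w ∈ L, CL.HK L E (pH d) ρ u w *
        (∑ z ∈ L, CL.GT L E (pH d) ρ k w z * CL.HK L E (pH d) ρ z v) =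
        ∑ b ∈ L, H u w * G0 E (pH d) L ρ w b * S b v := by
      intro w hw
      rw [e1 w hw, hGK u hu w hw, Finset.mul_sum]
      refine Finset.sum_congr rfl fun b _ => ?_
      ring
    rw [Finset.sum_congr rfl e4, Finset.sum_comm]
    have e5 : ∀ b ∈ L, ∑ w ∈ L, H u w * G0 E (pH d) L ρ w b * S b v = ind (u = b) * S b v := by
      intro b hb
      rw [← Finset.sum_mul, hHG u hu b hb]
    rw [Finset.sum_congr rfl e5, Finset.sum_eq_single u]
    · simp [ind]
    · intro b _ hbu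
      have : ¬ u = b := fun h => hbu h.symm
      simp [ind, this]
    · intro huL
      exact absurd hu huL
  constructor
  · intro u hu
    rw [Finset.sum_congr rfl fun v hv => by rw [hGK u hu v hv]]
    exact hbH u hu
  · intro u hu
    rw [Finset.sum_congr rfl fun v hv => by rw [hSK u hu v hv]]
    exact hbS u hu

end Pool.LT
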